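import Mathlib
import Pool.Agent.H1.WN.Asm
import Pool.Agent.H1.WN.Mert
import Pool.Agent.H1.WN.Fm

/-!
# The normal number of small prime factors of the Woodall numbers `k 2^k - 1`

(1) A Turán-Kubilius inequality for sums over the primes `p ≤ z` dividing `k 2^k - 1`, `k < X`, for `z ≤ X^θ`,
`θ < 1/3`, with arbitrary weights `f p`.
(2) For `X^α ≤ z ≤ X^θ`, `0 < α`, `θ < 2/3`, the number of primes `p ≤ z` dividing `k 2^k - 1` has the normal order
`log log X`.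

Both rest on the level of distribution `Pool.Agent.H5.WD.lev_half` of our RoughUpToThird.
-/

set_option autoImplicit false

namespace Pool.Agent.Results.MP_e3cfc2_nt.NormalOrder

open Finset

/-- the set of the odd primes `p ≤ z` -/
noncomputable def oddPrimes (z : ℝ) : Finset ℕ := (range (⌊z⌋₊ + 1)).filter fun p => p.Prime ∧ p ≠ 2

/-- the number of primes `p ≤ z` dividing `k 2^k - 1` -/
noncomputable def w (z : ℝ) (k : ℕ) : ℕ := {p : ℕ | p.Prime ∧ (p : ℝ) ≤ z ∧ p ∣ k * 2 ^ k - 1}.ncard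

open Pool.Agent.H5.WD Pool.Agent.H1.WN in
theorem hi_eq {k : ℕ} (hk : 1 ≤ k) (p : ℕ) : hi {p} k = if p ∣ k * 2 ^ k - 1 then 1 else 0 := by
  classical
  unfold hi
  by_cases h : p ∣ k * 2 ^ k - 1
  · rw [if_pos h, if_pos]
    intro q hq
    rw [Finset.mem_singleton] at hq
    subst hq
    exact (dvd_iff_hit hk).1 h
  · rw [if_neg h, if_neg]
    intro h2
    exact h ((dvd_iff_hit hk).2 (h2 p (Finset.mem_singleton_self p)))

open Pool.Agent.H5.WD Pool.Agent.H1.WN in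
theorem w_eq (z : ℝ) {k : ℕ} (hk : 1 ≤ k) : (w z k : ℝ) = ∑ p ∈ P z, hi {p} k := by
  classical
  have h1 : {p : ℕ | p.Prime ∧ (p : ℝ) ≤ z ∧ p ∣ k * 2 ^ k - 1} =
      (((P z).filter fun p => p ∣ k * 2 ^ k - 1 : Finset ℕ) : Set ℕ) := by
    ext p
    simp only [Set.mem_setOf_eq, Finset.coe_filter, mem_P]
    constructor
    · rintro ⟨h1, h2, h3⟩
      refine ⟨⟨Nat.le_floor h2, h1, ?_⟩, h3⟩
      intro h4
      subst h4
      have h5 : 2 ∣ k * 2 ^ k := Dvd.dvd.mul_left (dvd_pow_self 2 (by omega)) k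
      have h6 : 0 < k * 2 ^ k := by positivity
      omega
    · rintro ⟨⟨h1, h2, h3⟩, h4⟩
      refine ⟨h2, ?_, h4⟩
      have h5 : ⌊z⌋₊ ≠ 0 := by
        have := h2.pos
        omega
      exact (Nat.le_floor_iff' h2.ne_zero).1 h1
  unfold w
  rw [h1, Set.ncard_coe_finset, Finset.card_filter]
  push_cast
  exact Finset.sum_congr rfl fun p _ => (hi_eq hk p).symm

/-- **Main result.** -/
theorem result :
    (∀ θ : ℝ, θ < 1 / 3 → ∃ C : ℝ, 0 < C ∧ ∀ X : ℕ, 1 ≤ X → ∀ z : ℝ, z ≤ (X : ℝ) ^ θ → ∀ f : ℕ → ℝ,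
      ∑ k ∈ Ico 1 X, (∑ p ∈ (oddPrimes z).filter (fun p => p ∣ k * 2 ^ k - 1), f p -
          ∑ p ∈ oddPrimes z, f p / p) ^ 2 ≤ C * X * ∑ p ∈ oddPrimes z, f p ^ 2 / p) ∧
    (∀ α θ : ℝ, 0 < α → θ < 2 / 3 → ∃ C : ℝ, 0 < C ∧ ∃ X0 : ℕ, ∀ X : ℕ, X0 ≤ X →
      ∀ z : ℝ, (X : ℝ) ^ α ≤ z → z ≤ (X : ℝ) ^ θ → ∀ ξ : ℝ, 1 ≤ ξ → ξ ^ 2 ≤ Real.log (Real.log X) →
        (((Ico 1 X).filter fun k => ξ * Real.sqrt (Real.log (Real.log X)) <
          |(w z k : ℝ) - Real.log (Real.log X)|).card : ℝ) ≤ C * X / ξ ^ 2) := by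
  classical
  constructor
  · intro θ hθ
    obtain ⟨C, hC, h⟩ := Pool.Agent.H1.WN.tk θ hθ
    refine ⟨C, hC, ?_⟩
    intro X hX z hz f
    refine le_trans ?_ (h X z hX hz f)
    have h1 : Ico 1 X ⊆ range X := by
      intro k hk
      rw [mem_Ico] at hk
      exact mem_range.2 hk.2
    refine le_trans (le_of_eq ?_) (Finset.sum_le_sum_of_subset_of_nonneg h1 fun k _ _ => sq_nonneg _)
    refine Finset.sum_congr rfl fun k hk => ?_
    have hk1 := (mem_Ico.1 hk).1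
    congr 2
    rw [Finset.sum_filter]
    refine Finset.sum_congr rfl fun p _ => ?_
    rw [hi_eq hk1]
    split_ifs <;> simp
  · intro α θ hα hθ
    obtain ⟨C, X0, hC, h⟩ := Pool.Agent.H1.WN.asm Pool.Agent.H1.WN.mert Pool.Agent.H1.WN.fm α θ hα hθ
    refine ⟨C, hC, X0, ?_⟩
    intro X hX z hz1 hz2 ξ hξ hξ2
    refine le_trans ?_ (h X hX z hz1 hz2 ξ hξ hξ2)
    have h1 : ((Ico 1 X).filter fun k => ξ * Real.sqrt (Real.log (Real.log X)) <
        |(w z k : ℝ) - Real.log (Real.log X)|) ⊆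
        (range X).filter fun k => ξ * Real.sqrt (Real.log (Real.log X)) <
          |∑ p ∈ Pool.Agent.H1.WN.P z, Pool.Agent.H5.WD.hi {p} k - Real.log (Real.log X)| := by
      intro k hk
      rw [mem_filter, mem_Ico] at hk
      rw [mem_filter, mem_range, ← w_eq z hk.1.1]
      exact ⟨hk.1.2, hk.2⟩
    exact_mod_cast Finset.card_le_card h1

end Pool.Agent.Results.MP_e3cfc2_nt.NormalOrder
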