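import Pool.Agent.H1.WP.TriCount

set_option autoImplicit false

/-!
# MP_e3cfc2_nt: prime power divisors of `k b^k + c` (Woodall numbers: `b = 2`, `c = -1`)
-/

namespace Pool.Agent.Results.MP_e3cfc2_nt.PrimePowerDivisors

open Finset

private theorem log_le_inner {b : ℕ} {c : ℤ} {k m : ℕ} {z : ℝ}
    (hm : (m : ℤ) ∣ (k : ℤ) * (b : ℤ) ^ k + c)
    (hq : ∀ q : ℕ, IsPrimePow q → q ∣ m → (q : ℝ) ≤ z) :
    Real.log m ≤ ∑ q ∈ (Ioc 0 ⌊z⌋₊).filter (fun q : ℕ => (q : ℤ) ∣ (k : ℤ) * (b : ℤ) ^ k + c),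
      ArithmeticFunction.vonMangoldt q := by
  rw [← ArithmeticFunction.vonMangoldt_sum, ← Finset.sum_filter_ne_zero]
  apply Finset.sum_le_sum_of_subset_of_nonneg
  · intro q hqm
    rw [mem_filter, Nat.mem_divisors] at hqm
    have h1 : (q : ℤ) ∣ (k : ℤ) * (b : ℤ) ^ k + c := (Int.natCast_dvd_natCast.2 hqm.1.1).trans hm
    have h2 : IsPrimePow q := ArithmeticFunction.vonMangoldt_ne_zero_iff.1 hqm.2
    rw [mem_filter, mem_Ioc]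
    exact ⟨⟨h2.pos, Nat.le_floor (hq q h2 hqm.1.1)⟩, h1⟩
  · intro _ _ _; exact ArithmeticFunction.vonMangoldt_nonneg

private theorem almost (C : ℝ) (hC : 0 < C) (δ : ℝ) (hδ : 0 < δ) :
    ∃ η : ℝ, 0 < η ∧ ∃ X₀ : ℕ, ∀ X : ℕ, X₀ ≤ X → 1 ≤ η * (X : ℝ) ^ (5 / 3 : ℝ) ∧
      C * ((η * (X : ℝ) ^ (5 / 3 : ℝ) * X) ^ (3 / 8 : ℝ) +
        (X : ℝ) ^ (5 / 6 : ℝ) * Real.log X ^ (1 / 3 : ℝ)) ≤ δ * X := by
  set ε := δ / (2 * C) with hε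
  have hε0 : 0 < ε := by positivity
  refine ⟨ε ^ (8 / 3 : ℝ), by positivity, ?_⟩
  have h1 : Filter.Tendsto (fun x : ℝ => Real.log x / x ^ (1 / 2 : ℝ)) Filter.atTop
      (nhds 0) := (isLittleO_log_rpow_atTop (by norm_num)).tendsto_div_nhds_zero
  have h2 : ∀ᶠ x : ℝ in Filter.atTop, Real.log x / x ^ (1 / 2 : ℝ) < ε ^ 3 :=
    h1.eventually (gt_mem_nhds (by positivity))
  have h3 : ∀ᶠ X : ℕ in Filter.atTop, Real.log X / (X : ℝ) ^ (1 / 2 : ℝ) < ε ^ 3 :=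
    tendsto_natCast_atTop_atTop.eventually h2
  have h3' : ∀ᶠ x : ℝ in Filter.atTop, (ε ^ (8 / 3 : ℝ))⁻¹ ≤ x ^ (5 / 3 : ℝ) :=
    (tendsto_rpow_atTop (by norm_num)).eventually_ge_atTop _
  have h3'' : ∀ᶠ X : ℕ in Filter.atTop, (ε ^ (8 / 3 : ℝ))⁻¹ ≤ (X : ℝ) ^ (5 / 3 : ℝ) :=
    tendsto_natCast_atTop_atTop.eventually h3'
  obtain ⟨X₁, hX₁⟩ := Filter.eventually_atTop.1 (h3.and h3'')
  refine ⟨max X₁ 1, fun X hX => ?_⟩
  have hX1 : 1 ≤ X := (le_max_right _ _).trans hX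
  have hX0 : (0 : ℝ) < X := by exact_mod_cast hX1
  obtain ⟨h4, h4'⟩ := hX₁ X ((le_max_left _ _).trans hX)
  have hL0 : 0 ≤ Real.log X := Real.log_natCast_nonneg X
  constructor
  · have h8 : 0 < ε ^ (8 / 3 : ℝ) := by positivity
    calc (1 : ℝ) = ε ^ (8 / 3 : ℝ) * (ε ^ (8 / 3 : ℝ))⁻¹ := by field_simp
      _ ≤ _ := mul_le_mul_of_nonneg_left h4' h8.le
  rw [div_lt_iff₀ (by positivity)] at h4
  have h5 : (ε ^ (8 / 3 : ℝ) * (X : ℝ) ^ (5 / 3 : ℝ) * X) ^ (3 / 8 : ℝ) = ε * X := by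
    have h51 : (X : ℝ) ^ (5 / 3 : ℝ) * X = (X : ℝ) ^ (8 / 3 : ℝ) := by
      nth_rewrite 2 [← Real.rpow_one (X : ℝ)]
      rw [← Real.rpow_add hX0]; norm_num
    rw [mul_assoc, h51, Real.mul_rpow (by positivity) (by positivity), ← Real.rpow_mul hX0.le,
      ← Real.rpow_mul hε0.le]
    norm_num
  have h6 : (X : ℝ) ^ (5 / 6 : ℝ) * Real.log X ^ (1 / 3 : ℝ) ≤ ε * X := by
    have h61 : Real.log X ^ (1 / 3 : ℝ) ≤ (ε ^ 3 * (X : ℝ) ^ (1 / 2 : ℝ)) ^ (1 / 3 : ℝ) :=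
      Real.rpow_le_rpow hL0 h4.le (by norm_num)
    have h62 : (ε ^ 3 * (X : ℝ) ^ (1 / 2 : ℝ)) ^ (1 / 3 : ℝ) = ε * (X : ℝ) ^ (1 / 6 : ℝ) := by
      rw [Real.mul_rpow (by positivity) (by positivity), ← Real.rpow_natCast,
        ← Real.rpow_mul hε0.le, ← Real.rpow_mul hX0.le]
      norm_num
    rw [h62] at h61
    calc (X : ℝ) ^ (5 / 6 : ℝ) * Real.log X ^ (1 / 3 : ℝ)
        ≤ (X : ℝ) ^ (5 / 6 : ℝ) * (ε * (X : ℝ) ^ (1 / 6 : ℝ)) :=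
          mul_le_mul_of_nonneg_left h61 (by positivity)
      _ = ε * ((X : ℝ) ^ (5 / 6 : ℝ) * (X : ℝ) ^ (1 / 6 : ℝ)) := by ring
      _ = ε * X := by
          rw [← Real.rpow_add hX0]; norm_num
  rw [h5]
  calc C * (ε * X + (X : ℝ) ^ (5 / 6 : ℝ) * Real.log X ^ (1 / 3 : ℝ))
      ≤ C * (ε * X + ε * X) := mul_le_mul_of_nonneg_left (by linarith) hC.le
    _ = δ * X := by
        rw [hε]; field_simp; ring

open Classical in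
/-- Let `b ≥ 2` and `c` be coprime integers. There is `C` such that for all integers `X ≥ 2` and
all real `z ≥ 1`: (1) if `m k` (`1 ≤ k ≤ X`) is a divisor of `k b^k + c` all of whose prime power
divisors are at most `z`, then the sum of the `log (m k)` over `k ≤ X` is at most
`C ((z X)^(3/4) + X^(5/3) (log X)^(2/3))`; (2) for at most `C ((z X)^(3/8) + X^(5/6) (log X)^(1/3))`
of the `k ≤ X` all prime powers dividing `k b^k + c` are at most `z`. (3) For every `δ > 0` there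
is `η > 0` such that for all large `X`, for all but at most `δ X` of the `k ≤ X` some prime power
larger than `η k^(5/3)` divides `k b^k + c`. -/
theorem result (b : ℕ) (hb : 2 ≤ b) (c : ℤ) (hbc : IsCoprime (b : ℤ) c) :
    (∃ C : ℝ, ∀ (X : ℕ) (z : ℝ), 2 ≤ X → 1 ≤ z →
      (∀ m : ℕ → ℕ, (∀ k : ℕ, 1 ≤ k → k ≤ X → (m k : ℤ) ∣ (k : ℤ) * (b : ℤ) ^ k + c ∧
          ∀ q : ℕ, IsPrimePow q → q ∣ m k → (q : ℝ) ≤ z) →
        ∑ k ∈ Icc 1 X, Real.log (m k)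
          ≤ C * ((z * X) ^ (3 / 4 : ℝ) + (X : ℝ) ^ (5 / 3 : ℝ) * Real.log X ^ (2 / 3 : ℝ))) ∧
      (#((Icc 1 X).filter (fun k : ℕ => ∀ q : ℕ, IsPrimePow q →
        (q : ℤ) ∣ (k : ℤ) * (b : ℤ) ^ k + c → (q : ℝ) ≤ z)) : ℝ)
        ≤ C * ((z * X) ^ (3 / 8 : ℝ) + (X : ℝ) ^ (5 / 6 : ℝ) * Real.log X ^ (1 / 3 : ℝ))) ∧
    (∀ δ : ℝ, 0 < δ → ∃ η : ℝ, 0 < η ∧ ∃ X₀ : ℕ, ∀ X : ℕ, X₀ ≤ X →
      (#((Icc 1 X).filter (fun k : ℕ => ¬ ∃ q : ℕ, IsPrimePow q ∧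
        (q : ℤ) ∣ (k : ℤ) * (b : ℤ) ^ k + c ∧ η * (k : ℝ) ^ (5 / 3 : ℝ) < q)) : ℝ)
        ≤ δ * X) := by
  obtain ⟨C₁, hC₁, h1⟩ := Pool.Agent.H1.WP.tri_mean hb hbc
  obtain ⟨C₂, hC₂, h2⟩ := Pool.Agent.H1.WP.tri_count hb hbc
  refine ⟨⟨max C₁ C₂, fun X z hX hz => ⟨?_, ?_⟩⟩, ?_⟩
  · intro m hm
    have hL0 : 0 ≤ Real.log X := Real.log_natCast_nonneg X
    calc ∑ k ∈ Icc 1 X, Real.log (m k)
        ≤ ∑ k ∈ Icc 1 X, ∑ q ∈ (Ioc 0 ⌊z⌋₊).filter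
          (fun q : ℕ => (q : ℤ) ∣ (k : ℤ) * (b : ℤ) ^ k + c),
          ArithmeticFunction.vonMangoldt q := by
          apply Finset.sum_le_sum
          intro k hk
          rw [mem_Icc] at hk
          exact log_le_inner (hm k hk.1 hk.2).1 (hm k hk.1 hk.2).2
      _ ≤ C₁ * ((z * X) ^ (3 / 4 : ℝ) + (X : ℝ) ^ (5 / 3 : ℝ) * Real.log X ^ (2 / 3 : ℝ)) :=
          h1 X z hX hz
      _ ≤ _ := mul_le_mul_of_nonneg_right (le_max_left _ _) (by positivity)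
  · have hL0 : 0 ≤ Real.log X := Real.log_natCast_nonneg X
    exact (h2 X z hX hz).trans (mul_le_mul_of_nonneg_right (le_max_right _ _) (by positivity))
  · intro δ hδ
    obtain ⟨η, hη, X₀, h0⟩ := almost C₂ hC₂ δ hδ
    refine ⟨η, hη, max X₀ 2, fun X hX => ?_⟩
    have hX2 : 2 ≤ X := (le_max_right _ _).trans hX
    obtain ⟨h3, h4⟩ := h0 X ((le_max_left _ _).trans hX)
    refine le_trans ?_ ((h2 X (η * (X : ℝ) ^ (5 / 3 : ℝ)) hX2 h3).trans h4)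
    have hsub : ((Icc 1 X).filter (fun k : ℕ => ¬ ∃ q : ℕ, IsPrimePow q ∧
        (q : ℤ) ∣ (k : ℤ) * (b : ℤ) ^ k + c ∧ η * (k : ℝ) ^ (5 / 3 : ℝ) < q)) ⊆
        ((Icc 1 X).filter (fun k : ℕ => ∀ q : ℕ, IsPrimePow q →
        (q : ℤ) ∣ (k : ℤ) * (b : ℤ) ^ k + c → (q : ℝ) ≤ η * (X : ℝ) ^ (5 / 3 : ℝ))) := by
      intro k hk
      rw [mem_filter] at hk ⊢
      refine ⟨hk.1, fun q hq hqk => ?_⟩
      have h5 : (q : ℝ) ≤ η * (k : ℝ) ^ (5 / 3 : ℝ) := by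
        by_contra hcon
        exact hk.2 ⟨q, hq, hqk, not_le.1 hcon⟩
      refine h5.trans (mul_le_mul_of_nonneg_left ?_ hη.le)
      apply Real.rpow_le_rpow (Nat.cast_nonneg _) _ (by norm_num)
      exact_mod_cast (mem_Icc.1 hk.1).2
    exact_mod_cast card_le_card hsub

end Pool.Agent.Results.MP_e3cfc2_nt.PrimePowerDivisors
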