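import Mathlib
import Pool.Agent.H5.WD.Last

/-!
# Woodall numbers `k 2^k - 1` without prime factors up to `X^(1/3 - ε)`

For every `θ < 1/3` the number of `1 ≤ k ≤ X` for which `k 2^k - 1` has no prime factor `≤ z` has the exact order
`X / log z`, uniformly for `2 ≤ z ≤ X^θ`. The proof: the number of `1 ≤ k ≤ X` with `d ∣ k 2^k - 1` is
`X/d + O(d^(1/2+ε))` for odd squarefree `d` (`Pool.Agent.H5.WD.lev_half`, by complete sums over the powers of `2`),
which is a level of distribution `X^(2/3-ε)`, the fundamental lemma and the linear sieve.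
-/

set_option autoImplicit false

namespace Pool.Agent.Results.MP_e3cfc2_nt.RoughUpToThird

/-- the number of `1 ≤ k ≤ X` such that no prime `p ≤ z` divides `k 2^k - 1` -/
noncomputable def N (X : ℕ) (z : ℝ) : ℕ :=
  {k : ℕ | 1 ≤ k ∧ k ≤ X ∧ ∀ p : ℕ, p.Prime → (p : ℝ) ≤ z → ¬ p ∣ k * 2 ^ k - 1}.ncard

open Pool.Agent.H5.WD Pool.Agent.H75.AP in
theorem free_iff (z : ℝ) (k : ℕ) (hk : 1 ≤ k) :
    Free z k ↔ ∀ p : ℕ, p.Prime → (p : ℝ) ≤ z → ¬ p ∣ k * 2 ^ k - 1 := by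
  constructor
  · intro h p hp hpz hdvd
    rcases hp.eq_two_or_odd' with h2 | hodd
    · subst h2
      have h3 : 2 ∣ k * 2 ^ k := Dvd.dvd.mul_left (dvd_pow_self 2 (by omega)) k
      have h4 : 0 < k * 2 ^ k := by positivity
      omega
    · have h3 : 2 < p := by
        have := hp.two_le
        rcases this.lt_or_eq with h | h
        · exact h
        · subst h; exact absurd hodd (by decide)
      refine h p ((MertB.mem_PI (by norm_num)).2 ⟨hp, by exact_mod_cast h3, hpz⟩) ?_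
      exact (dvd_iff_hit hk).1 hdvd
  · intro h p hp hit
    obtain ⟨h1, h2, h3⟩ := (MertB.mem_PI (by norm_num)).1 hp
    exact h p h1 h3 ((dvd_iff_hit hk).2 hit)

open Pool.Agent.H5.WD in
theorem N_eq (X : ℕ) (z : ℝ) : (N X z : ℝ) = NN X z := by
  classical
  have h1 : {k : ℕ | 1 ≤ k ∧ k ≤ X ∧ ∀ p : ℕ, p.Prime → (p : ℝ) ≤ z → ¬ p ∣ k * 2 ^ k - 1} =
      (((Finset.Icc 1 X).filter fun k => Free z k : Finset ℕ) : Set ℕ) := by
    ext k
    simp only [Set.mem_setOf_eq, Finset.coe_filter, Finset.mem_Icc]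
    constructor
    · rintro ⟨h1, h2, h3⟩
      exact ⟨⟨h1, h2⟩, (free_iff z k h1).2 h3⟩
    · rintro ⟨⟨h1, h2⟩, h3⟩
      exact ⟨h1, h2, (free_iff z k h1).1 h3⟩
  unfold N
  rw [h1, Set.ncard_coe_finset, NN_eq, Finset.card_filter]
  push_cast
  rfl

/-- **Main result.** -/
theorem result (θ : ℝ) (hθ : θ < 1 / 3) : ∃ c C : ℝ, 0 < c ∧ 0 < C ∧ ∃ X0 : ℕ, ∀ X : ℕ, X0 ≤ X →
    ∀ z : ℝ, 2 ≤ z → z ≤ (X : ℝ) ^ θ →
      c * (X / Real.log z) ≤ N X z ∧ (N X z : ℝ) ≤ C * (X / Real.log z) := by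
  obtain ⟨c, C, hc, hC, X0, h⟩ := Pool.Agent.H5.WD.both θ hθ
  refine ⟨c, C, hc, hC, X0, ?_⟩
  intro X hX z hz hzX
  rw [N_eq]
  exact h X hX z hz hzX

end Pool.Agent.Results.MP_e3cfc2_nt.RoughUpToThird
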