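import Pool.Agent.H2.WO.Fin

/-!
The numbers `k b ^ k + c` (Woodall: `b = 2`, `c = -1`; Cullen: `b = 2`, `c = 1`) and their prime factors up to `X ^ δ`,
`k < X`.

For every finite set `C` of integers prime to `b` the number of the `k < X` such that no `k b ^ k + c`, `c ∈ C`, has a prime
factor `p ≤ y` is asymptotic to the expected number `X ∏ (1 - |C mod p| / p)` over the primes `p ≤ y` not dividing `b`,
uniformly for `y ≤ X ^ δ`: the relative error is at most `ε` if `δ` is small in terms of `ε` and of the number of elements of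
`C`. In particular the `k < X` for which the Woodall number `k 2 ^ k - 1` has no prime factor `≤ X ^ δ` have the exact order
`X / log X`; for `k 2 ^ k - 1` and `k 2 ^ k + 1` together it is `X / (log X) ^ 2`. There is no covering obstruction for any
`b` and `c` with `(b, c) = 1` (in contrast to the numbers `2 ^ k + c`).
-/

namespace Pool.Agent.Results.MP_e3cfc2_nt.RoughValues

/-- the number of the `k < X` such that no number `k b ^ k + c`, `c ∈ C`, has a prime factor `p ≤ y` -/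
noncomputable def rough (b : ℕ) (C : Finset ℤ) (X : ℕ) (y : ℝ) : ℕ :=
  {k : ℕ | k < X ∧ ∀ c ∈ C, ∀ p : ℕ, p.Prime → (p : ℝ) ≤ y → ¬ (p : ℤ) ∣ (k : ℤ) * (b : ℤ) ^ k + c}.ncard

/-- the number of residue classes modulo `p` which contain an element of `C` -/
noncomputable def classes (C : Finset ℤ) (p : ℕ) : ℕ := ((fun c : ℤ => (c : ZMod p)) '' (C : Set ℤ)).ncard

/-- the product of `1 - |C mod p| / p` over the primes `p ≤ y` which do not divide `b` -/
noncomputable def density (b : ℕ) (C : Finset ℤ) (y : ℝ) : ℝ :=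
  ∏ p ∈ (Finset.range (⌊y⌋₊ + 1)).filter (fun p => p.Prime ∧ ¬ p ∣ b), (1 - (classes C p : ℝ) / p)

theorem result (K : ℕ) :
    (∀ ε : ℝ, 0 < ε → ∃ δ : ℝ, 0 < δ ∧ ∀ (b : ℕ) (C : Finset ℤ), C.card ≤ K → (∀ c ∈ C, IsCoprime (b : ℤ) c) →
      ∃ X₀ : ℕ, ∀ X : ℕ, X₀ ≤ X → ∀ y : ℝ, y ≤ (X : ℝ) ^ δ →
        |(rough b C X y : ℝ) - X * density b C y| ≤ ε * (X * density b C y)) ∧
    ∃ δ : ℝ, 0 < δ ∧ ∀ (b : ℕ) (C : Finset ℤ), 1 ≤ b → C.card = K → (∀ c ∈ C, IsCoprime (b : ℤ) c) →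
      (∀ p : ℕ, p.Prime → ¬ p ∣ b → classes C p < p) →
        ∃ η : ℝ, 0 < η ∧ ∃ X₀ : ℕ, ∀ X : ℕ, X₀ ≤ X →
          η * (X / Real.log X ^ K) ≤ rough b C X ((X : ℝ) ^ δ) ∧
          (rough b C X ((X : ℝ) ^ δ) : ℝ) ≤ η⁻¹ * (X / Real.log X ^ K) := by
  refine ⟨fun ε hε => ?_, Pool.Agent.H2.WO.part2 K⟩
  obtain ⟨δ, hδ, -, h⟩ := Pool.Agent.H2.WO.part1 K ε hε
  exact ⟨δ, hδ, h⟩

end Pool.Agent.Results.MP_e3cfc2_nt.RoughValues
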